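import Mathlib
import Pool.Agent.H418Z.BesovDefs
import Pool.Agent.H418Z.BesovSet

set_option autoImplicit false

namespace Pool.Agent.Results.MP_9e0505_an.Counterexample

open MeasureTheory Pool.Agent.H418Z.Besov

/-- In dimension `n = 1` there are `0 < α < 1` and `1 ≤ q < p` with `α p < 1` and a compact set
`K` of `(1 - α p)`-dimensional Hausdorff measure zero and positive Besov capacity. -/
theorem result : ∃ α p q : ℝ, 0 < α ∧ α < 1 ∧ 1 ≤ q ∧ q < p ∧ α * p < 1 ∧
    ∃ K : Set ℝ, IsCompact K ∧ Measure.hausdorffMeasure (1 - α * p) K = 0 ∧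
      0 < besovCapacity α p q K :=
  ⟨1 / 4, 2, 1, by norm_num, by norm_num, le_rfl, by norm_num, by norm_num, K, isCompact_K,
    by rw [show (1 - 1 / 4 * 2 : ℝ) = 1 / 2 by norm_num]; exact hausdorff_K, capacity_pos⟩

end Pool.Agent.Results.MP_9e0505_an.Counterexample
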